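import Mathlib
import Pool.Agent.H79.HN.Defs
import Pool.Agent.H73.HK.PF

/-!
# PFJ: the product formula inequality for coefficients of products of power series

The entries of the matrix are the coefficients of `u^(tau i)` in products of power series with
local bounds `Bdd`; if the determinant is not zero and small at one finite place then the sizes
of the power series are large.
-/

namespace Pool.Agent.H79.HN

open scoped BigOperators

section PFJ

open Height Height.AdmissibleAbsValues Function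

private theorem pfj_ord_add {κ : ℕ} (a b : Fin κ →₀ ℕ) : ord (a + b) = ord a + ord b := by
  simp [ord, Finset.sum_add_distrib]

private theorem pfj_ord_zero {κ : ℕ} : ord (0 : Fin κ →₀ ℕ) = 0 := by
  simp [ord]

private theorem pfj_fac_zero {κ : ℕ} : fac (0 : Fin κ →₀ ℕ) = 1 := by
  simp [fac]

private theorem pfj_ord_eq_zero {κ : ℕ} {a : Fin κ →₀ ℕ} (h : ord a = 0) : a = 0 := by
  ext i
  have h1 : ∀ i ∈ Finset.univ, a i = 0 := by
    have := (Finset.sum_eq_zero_iff (s := Finset.univ) (f := fun i => a i)).1 h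
    exact this
  simpa using h1 i (Finset.mem_univ i)

private theorem pfj_fac_pos {κ : ℕ} (a : Fin κ →₀ ℕ) : 0 < fac a :=
  Finset.prod_pos fun _ _ => Nat.factorial_pos _

private theorem pfj_fac_add {κ : ℕ} (a b : Fin κ →₀ ℕ) : fac a * fac b ∣ fac (a + b) := by
  unfold fac
  rw [← Finset.prod_mul_distrib]
  exact Finset.prod_dvd_prod_of_dvd _ _ fun i _ => by
    simpa using Nat.factorial_mul_factorial_dvd_factorial_add (a i) (b i)

/-- the weighted number of decompositions in two parts -/
private theorem pfj_antidiag {κ : ℕ} {y : ℝ} (hy : 0 ≤ y) (n : ℕ) :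
    ∀ τ : Fin κ →₀ ℕ, ord τ = n →
      ∑ x ∈ Finset.HasAntidiagonal.antidiagonal τ, y ^ ord x.2 ≤ (y + 1) ^ n := by
  classical
  induction n with
  | zero =>
    intro τ h
    have h0 : τ = 0 := pfj_ord_eq_zero h
    subst h0
    simp [pfj_ord_zero]
  | succ n ih =>
    intro τ h
    obtain ⟨i, hi⟩ : ∃ i, τ i ≠ 0 := by
      by_contra hc
      push Not at hc
      have : ord τ = 0 := by simp [ord, hc]
      omega
    obtain ⟨τ', hτ⟩ : ∃ τ', τ = τ' + Finsupp.single i 1 :=
      ⟨τ - Finsupp.single i 1, (tsub_add_cancel_of_le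
        (Finsupp.single_le_iff.2 (Nat.one_le_iff_ne_zero.2 hi))).symm⟩
    have hs : ord (Finsupp.single i 1 : Fin κ →₀ ℕ) = 1 := by
      simp [ord, Finsupp.single_apply]
    have hord : ord τ' = n := by
      have := pfj_ord_add τ' (Finsupp.single i 1)
      rw [← hτ, hs, h] at this
      omega
    have hsub : Finset.HasAntidiagonal.antidiagonal τ ⊆
        (Finset.HasAntidiagonal.antidiagonal τ').image (fun x => (x.1 + Finsupp.single i 1, x.2)) ∪
          (Finset.HasAntidiagonal.antidiagonal τ').image (fun x => (x.1, x.2 + Finsupp.single i 1)) := by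
      intro x hx
      rw [Finset.HasAntidiagonal.mem_antidiagonal] at hx
      rw [Finset.mem_union]
      by_cases h1 : x.1 i = 0
      · right
        have h2 : x.2 i ≠ 0 := by
          intro h2
          have := congrArg (fun f => f i) hx
          simp only [Finsupp.add_apply, h1, h2] at this
          exact hi this.symm
        have h3 : x.2 = (x.2 - Finsupp.single i 1) + Finsupp.single i 1 :=
          (tsub_add_cancel_of_le (Finsupp.single_le_iff.2 (Nat.one_le_iff_ne_zero.2 h2))).symm
        refine Finset.mem_image.2 ⟨(x.1, x.2 - Finsupp.single i 1), ?_, ?_⟩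
        · rw [Finset.HasAntidiagonal.mem_antidiagonal]
          have h4 : x.1 + (x.2 - Finsupp.single i 1) + Finsupp.single i 1 =
              τ' + Finsupp.single i 1 := by
            rw [add_assoc, ← h3, hx, hτ]
          exact add_right_cancel h4
        · exact Prod.ext rfl h3.symm
      · left
        have h3 : x.1 = (x.1 - Finsupp.single i 1) + Finsupp.single i 1 :=
          (tsub_add_cancel_of_le (Finsupp.single_le_iff.2 (Nat.one_le_iff_ne_zero.2 h1))).symm
        refine Finset.mem_image.2 ⟨(x.1 - Finsupp.single i 1, x.2), ?_, ?_⟩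
        · rw [Finset.HasAntidiagonal.mem_antidiagonal]
          have h4 : x.1 - Finsupp.single i 1 + x.2 + Finsupp.single i 1 =
              τ' + Finsupp.single i 1 := by
            rw [add_right_comm, ← h3, hx, hτ]
          exact add_right_cancel h4
        · exact Prod.ext h3.symm rfl
    have hnn : ∀ x : (Fin κ →₀ ℕ) × (Fin κ →₀ ℕ), 0 ≤ y ^ ord x.2 := fun x => pow_nonneg hy _
    calc ∑ x ∈ Finset.HasAntidiagonal.antidiagonal τ, y ^ ord x.2
        ≤ ∑ x ∈ (Finset.HasAntidiagonal.antidiagonal τ').image (fun x => (x.1 + Finsupp.single i 1, x.2)) ∪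
          (Finset.HasAntidiagonal.antidiagonal τ').image (fun x => (x.1, x.2 + Finsupp.single i 1)),
            y ^ ord x.2 := Finset.sum_le_sum_of_subset_of_nonneg hsub fun x _ _ => hnn x
      _ ≤ ∑ x ∈ (Finset.HasAntidiagonal.antidiagonal τ').image (fun x => (x.1 + Finsupp.single i 1, x.2)),
            y ^ ord x.2 +
          ∑ x ∈ (Finset.HasAntidiagonal.antidiagonal τ').image (fun x => (x.1, x.2 + Finsupp.single i 1)),
            y ^ ord x.2 := by
          rw [← Finset.sum_union_inter]
          exact le_add_of_nonneg_right (Finset.sum_nonneg fun x _ => hnn x)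
      _ = ∑ x ∈ Finset.HasAntidiagonal.antidiagonal τ', y ^ ord x.2 +
          ∑ x ∈ Finset.HasAntidiagonal.antidiagonal τ', y ^ ord (x.2 + Finsupp.single i 1) := by
          rw [Finset.sum_image, Finset.sum_image]
          · intro a _ b _ hab
            have h1 := (Prod.mk.inj hab).1
            have h2 := (Prod.mk.inj hab).2
            exact Prod.ext h1 (add_right_cancel h2)
          · intro a _ b _ hab
            have h1 := (Prod.mk.inj hab).1
            have h2 := (Prod.mk.inj hab).2
            exact Prod.ext (add_right_cancel h1) h2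
      _ = (y + 1) * ∑ x ∈ Finset.HasAntidiagonal.antidiagonal τ', y ^ ord x.2 := by
          have : ∀ x : (Fin κ →₀ ℕ) × (Fin κ →₀ ℕ),
              y ^ ord (x.2 + Finsupp.single i 1) = y * y ^ ord x.2 := by
            intro x
            rw [pfj_ord_add, hs, pow_succ, mul_comm]
          simp only [this]
          rw [← Finset.mul_sum]
          ring
      _ ≤ (y + 1) * (y + 1) ^ n :=
          mul_le_mul_of_nonneg_left (ih τ' hord) (by linarith)
      _ = (y + 1) ^ (n + 1) := by ring

variable {K : Type} [Field K] [NumberField K]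

omit [NumberField K] in
/-- coefficients of a product, any absolute value -/
private theorem pfj_prod_arch {κ : ℕ} {ι : Type} (u : AbsoluteValue K ℝ)
    (F : ι → MvPowerSeries (Fin κ) K) (β : ι → ℝ) (m : ℝ) (hm : 1 ≤ m) (s : Finset ι)
    (hβ : ∀ i ∈ s, 1 ≤ β i ∧ β i ≤ m ∧
      ∀ τ, u (MvPowerSeries.coeff τ (F i)) ≤ β i ^ (ord τ + 1)) (τ : Fin κ →₀ ℕ) :
    u (MvPowerSeries.coeff τ (∏ i ∈ s, F i)) ≤
      ((s.card : ℝ) + 1) ^ ord τ * ((∏ i ∈ s, β i) * m ^ ord τ) := by
  classical
  induction s using Finset.induction_on generalizing τ with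
  | empty =>
    simp only [Finset.prod_empty, Finset.card_empty, Nat.cast_zero, zero_add, one_pow, one_mul]
    rw [MvPowerSeries.coeff_one]
    split_ifs with h
    · rw [map_one]
      exact one_le_pow₀ hm
    · rw [map_zero]
      positivity
  | insert a s ha ih =>
    have ih' := ih fun i hi => hβ i (Finset.mem_insert_of_mem hi)
    obtain ⟨h1, h2, h3⟩ := hβ a (Finset.mem_insert_self a s)
    have hP : 0 ≤ ∏ i ∈ s, β i := Finset.prod_nonneg fun i hi =>
      zero_le_one.trans (hβ i (Finset.mem_insert_of_mem hi)).1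
    rw [Finset.prod_insert ha, MvPowerSeries.coeff_mul, Finset.prod_insert ha,
      Finset.card_insert_of_notMem ha]
    refine (IsAbsoluteValue.abv_sum u _ _).trans ?_
    have hterm : ∀ x ∈ Finset.HasAntidiagonal.antidiagonal τ,
        u (MvPowerSeries.coeff x.1 (F a) * MvPowerSeries.coeff x.2 (∏ i ∈ s, F i)) ≤
          (β a * (∏ i ∈ s, β i) * m ^ ord τ) * ((s.card : ℝ) + 1) ^ ord x.2 := by
      intro x hx
      rw [Finset.HasAntidiagonal.mem_antidiagonal] at hx
      rw [map_mul]
      have h4 : u (MvPowerSeries.coeff x.1 (F a)) ≤ β a * m ^ ord x.1 := by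
        refine (h3 x.1).trans ?_
        rw [pow_succ, mul_comm]
        exact mul_le_mul_of_nonneg_left (pow_le_pow_left₀ (by linarith) h2 _) (by linarith)
      have h5 := ih' x.2
      calc u (MvPowerSeries.coeff x.1 (F a)) * u (MvPowerSeries.coeff x.2 (∏ i ∈ s, F i))
          ≤ (β a * m ^ ord x.1) *
            (((s.card : ℝ) + 1) ^ ord x.2 * ((∏ i ∈ s, β i) * m ^ ord x.2)) :=
            mul_le_mul h4 h5 (u.nonneg _) (by positivity)
        _ = _ := by
            rw [← hx, pfj_ord_add, pow_add]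
            ring
    refine (Finset.sum_le_sum hterm).trans ?_
    rw [← Finset.mul_sum]
    have h6 := pfj_antidiag (y := (s.card : ℝ) + 1) (by positivity) (ord τ) τ rfl
    have h7 : 0 ≤ β a * (∏ i ∈ s, β i) * m ^ ord τ := by positivity
    refine (mul_le_mul_of_nonneg_left h6 h7).trans (le_of_eq ?_)
    push_cast
    ring

/-- coefficients of a product times `tau!`, non archimedean absolute value -/
private theorem pfj_prod_nonarch {κ : ℕ} {ι : Type} (u : AbsoluteValue K ℝ)
    (hu : IsNonarchimedean u)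
    (F : ι → MvPowerSeries (Fin κ) K) (β : ι → ℝ) (m : ℝ) (hm : 1 ≤ m) (s : Finset ι)
    (hβ : ∀ i ∈ s, 1 ≤ β i ∧ β i ≤ m ∧
      ∀ τ, u ((fac τ : K) * MvPowerSeries.coeff τ (F i)) ≤ β i ^ (ord τ + 1))
    (τ : Fin κ →₀ ℕ) :
    u ((fac τ : K) * MvPowerSeries.coeff τ (∏ i ∈ s, F i)) ≤ (∏ i ∈ s, β i) * m ^ ord τ := by
  classical
  induction s using Finset.induction_on generalizing τ with
  | empty =>
    simp only [Finset.prod_empty, one_mul]
    rw [MvPowerSeries.coeff_one]
    split_ifs with h
    · subst h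
      rw [pfj_fac_zero, Nat.cast_one, one_mul, map_one]
      exact one_le_pow₀ hm
    · rw [mul_zero, map_zero]
      positivity
  | insert a s ha ih =>
    have ih' := ih fun i hi => hβ i (Finset.mem_insert_of_mem hi)
    obtain ⟨h1, h2, h3⟩ := hβ a (Finset.mem_insert_self a s)
    have hP : 0 ≤ ∏ i ∈ s, β i := Finset.prod_nonneg fun i hi =>
      zero_le_one.trans (hβ i (Finset.mem_insert_of_mem hi)).1
    rw [Finset.prod_insert ha, MvPowerSeries.coeff_mul, Finset.prod_insert ha, Finset.mul_sum]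
    refine Pool.Agent.H73.HK.pf_sum u hu (by positivity) _ _ fun x hx => ?_
    rw [Finset.HasAntidiagonal.mem_antidiagonal] at hx
    obtain ⟨C, hC⟩ := pfj_fac_add x.1 x.2
    have h4 : u ((fac x.1 : K) * MvPowerSeries.coeff x.1 (F a)) ≤ β a * m ^ ord x.1 := by
      refine (h3 x.1).trans ?_
      rw [pow_succ, mul_comm]
      exact mul_le_mul_of_nonneg_left (pow_le_pow_left₀ (by linarith) h2 _) (by linarith)
    have h5 := ih' x.2
    have h6 : u (C : K) ≤ 1 := hu.apply_natCast_le_one
    have h7 : (fac τ : K) * (MvPowerSeries.coeff x.1 (F a) *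
        MvPowerSeries.coeff x.2 (∏ i ∈ s, F i)) =
        (C : K) * (((fac x.1 : K) * MvPowerSeries.coeff x.1 (F a)) *
          ((fac x.2 : K) * MvPowerSeries.coeff x.2 (∏ i ∈ s, F i))) := by
      rw [← hx, hC]
      push_cast
      ring
    rw [h7, map_mul, map_mul]
    calc u (C : K) * (u ((fac x.1 : K) * MvPowerSeries.coeff x.1 (F a)) *
          u ((fac x.2 : K) * MvPowerSeries.coeff x.2 (∏ i ∈ s, F i)))
        ≤ 1 * ((β a * m ^ ord x.1) * ((∏ i ∈ s, β i) * m ^ ord x.2)) :=
          mul_le_mul h6 (mul_le_mul h4 h5 (u.nonneg _) (by positivity))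
            (mul_nonneg (u.nonneg _) (u.nonneg _)) zero_le_one
      _ = _ := by
          rw [← hx, pfj_ord_add, pow_add]
          ring

omit [NumberField K] in
/-- determinants: bound of the rows, any absolute value -/
private theorem pfj_det_arch {N : ℕ} (M : Matrix (Fin N) (Fin N) K) (u : AbsoluteValue K ℝ)
    (b : Fin N → ℝ) (hb : ∀ i j, u (M i j) ≤ b i) : u M.det ≤ N.factorial * ∏ i, b i := by
  have hterm : ∀ s : Equiv.Perm (Fin N), u (Equiv.Perm.sign s • ∏ i, M (s i) i) ≤ ∏ i, b i := by
    intro s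
    rw [Pool.Agent.H73.HK.pf_sign, map_prod, ← Equiv.prod_comp s fun i => b i]
    exact Finset.prod_le_prod (fun i _ => u.nonneg _) fun i _ => hb _ _
  rw [Matrix.det_apply]
  refine (IsAbsoluteValue.abv_sum u _ _).trans ?_
  refine (Finset.sum_le_sum fun s _ => hterm s).trans ?_
  rw [Finset.sum_const, Finset.card_univ, Fintype.card_perm, nsmul_eq_mul, Fintype.card_fin]

/-- determinants: bound of the rows, non archimedean absolute value -/
private theorem pfj_det_nonarch {N : ℕ} (M : Matrix (Fin N) (Fin N) K) (u : AbsoluteValue K ℝ)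
    (hu : IsNonarchimedean u) (b : Fin N → ℝ) (hb0 : ∀ i, 0 ≤ b i)
    (hb : ∀ i j, u (M i j) ≤ b i) : u M.det ≤ ∏ i, b i := by
  have hterm : ∀ s : Equiv.Perm (Fin N), u (Equiv.Perm.sign s • ∏ i, M (s i) i) ≤ ∏ i, b i := by
    intro s
    rw [Pool.Agent.H73.HK.pf_sign, map_prod, ← Equiv.prod_comp s fun i => b i]
    exact Finset.prod_le_prod (fun i _ => u.nonneg _) fun i _ => hb _ _
  rw [Matrix.det_apply]
  exact Pool.Agent.H73.HK.pf_sum u hu (Finset.prod_nonneg fun i _ => hb0 i) _ _ fun s _ =>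
    hterm s

omit [NumberField K] in
private theorem pfj_natCast_le (u : AbsoluteValue K ℝ) (n : ℕ) : u (n : K) ≤ n := by
  induction n with
  | zero => simp
  | succ n ih =>
    push_cast
    refine (u.add_le _ _).trans ?_
    rw [map_one]
    linarith

/-- **PFJ**: the product formula for the determinant of coefficients of products of power series. -/
theorem pf_jets {K : Type} [Field K] [NumberField K] {N L κ k : ℕ} {E : Type} [DecidableEq E]
    (l : Fin L → E) (φ : Fin N → E → Fin (k + 1) → MvPowerSeries (Fin κ) K)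
    (J : Fin N → Fin L → Fin (k + 1)) (τ : Fin N → Fin κ →₀ ℕ) (h : Fin N → E → ℝ)
    (hb : ∀ i s, Bdd (φ i (l s)) (h i (l s)))
    (hdet : Matrix.det (Matrix.of fun i j =>
      MvPowerSeries.coeff (τ i) (∏ s, φ i (l s) (J j s))) ≠ 0)
    {w : AbsoluteValue K ℝ} (hw : w ∈ nonarchAbsVal (K := K)) {B : ℝ} (hB0 : 0 < B)
    (hB : w (Matrix.det (Matrix.of fun i j =>
      (fac (τ i) : K) * MvPowerSeries.coeff (τ i) (∏ s, φ i (l s) (J j s)))) ≤ B) :
    - Real.log B ≤ ∑ i, (∑ s, h i (l s) + ord (τ i) * ∑ e ∈ Finset.univ.image l, h i e) +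
      totalWeight K * (Real.log (N.factorial : ℝ) +
        ∑ i, (Real.log (fac (τ i)) + ord (τ i) * Real.log (L + 1))) := by
  classical
  -- choice of the local bounds
  have hch : ∀ i e, ∃ (ba : AbsoluteValue K ℝ → ℝ) (bn : nonarchAbsVal (K := K) → ℝ),
      (∀ u ∈ archAbsVal (K := K), 1 ≤ ba u) ∧ (∀ u, 1 ≤ bn u) ∧ bn.HasFiniteMulSupport ∧
      (e ∈ Finset.univ.image l →
        (∀ u ∈ archAbsVal (K := K),
          ∀ j τ, u (MvPowerSeries.coeff τ (φ i e j)) ≤ ba u ^ (ord τ + 1)) ∧
        (∀ u : nonarchAbsVal (K := K),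
          ∀ j τ, u.val ((fac τ : K) * MvPowerSeries.coeff τ (φ i e j)) ≤ bn u ^ (ord τ + 1)) ∧
        ((archAbsVal (K := K)).map fun u => Real.log (ba u)).sum +
          ∑ᶠ u : nonarchAbsVal (K := K), Real.log (bn u) ≤ h i e) := by
    intro i e
    by_cases he : e ∈ Finset.univ.image l
    · obtain ⟨s, -, rfl⟩ := Finset.mem_image.1 he
      obtain ⟨ba, bn, h1, h2, h3, h4⟩ := hb i s
      exact ⟨ba, bn, fun u hu => (h1 u hu).1, fun u => (h2 u).1, h3, fun _ =>
        ⟨fun u hu => (h1 u hu).2, fun u => (h2 u).2, h4⟩⟩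
    · refine ⟨fun _ => 1, fun _ => 1, fun _ _ => le_rfl, fun _ => le_rfl, ?_, fun h => absurd h he⟩
      simp [Function.HasFiniteMulSupport]
  choose ba bn ha1 hn1 hfin hch using hch
  set M : Matrix (Fin N) (Fin N) K := Matrix.of fun i j =>
      (fac (τ i) : K) * MvPowerSeries.coeff (τ i) (∏ s, φ i (l s) (J j s)) with hM
  -- the determinant is not zero
  have hM0 : M.det ≠ 0 := by
    have h1 : M.det = (∏ i, (fac (τ i) : K)) * Matrix.det (Matrix.of fun i j =>
        MvPowerSeries.coeff (τ i) (∏ s, φ i (l s) (J j s))) := by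
      rw [hM]
      exact Matrix.det_mul_column (fun i => (fac (τ i) : K)) (Matrix.of fun i j =>
        MvPowerSeries.coeff (τ i) (∏ s, φ i (l s) (J j s)))
    rw [h1]
    refine mul_ne_zero (Finset.prod_ne_zero_iff.2 fun i _ => ?_) hdet
    exact_mod_cast (pfj_fac_pos (τ i)).ne'
  -- bounds for the rows
  have hprodle : ∀ (f : E → ℝ), (∀ e, 1 ≤ f e) → ∀ e ∈ Finset.univ.image l,
      f e ≤ ∏ e ∈ Finset.univ.image l, f e := by
    intro f hf e he
    rw [← Finset.mul_prod_erase _ _ he]
    exact le_mul_of_one_le_right (zero_le_one.trans (hf e))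
      (Finset.prod_induction _ (fun x => (1 : ℝ) ≤ x) (fun a b ha hb => one_le_mul_of_one_le_of_one_le ha hb)
        le_rfl fun e _ => hf e)
  have hprod1 : ∀ (f : E → ℝ), (∀ e, 1 ≤ f e) → 1 ≤ ∏ e ∈ Finset.univ.image l, f e := by
    intro f hf
    exact Finset.prod_induction _ (fun x => (1 : ℝ) ≤ x)
      (fun a b ha hb => one_le_mul_of_one_le_of_one_le ha hb) le_rfl fun e _ => hf e
  have hrowa : ∀ u ∈ archAbsVal (K := K), ∀ i j, u (M i j) ≤
      ((fac (τ i) : ℝ) * ((L : ℝ) + 1) ^ ord (τ i)) *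
        ((∏ s, ba i (l s) u) * (∏ e ∈ Finset.univ.image l, ba i e u) ^ ord (τ i)) := by
    intro u hu i j
    have h1 := pfj_prod_arch u (fun s => φ i (l s) (J j s)) (fun s => ba i (l s) u)
      (∏ e ∈ Finset.univ.image l, ba i e u) (hprod1 (fun e => ba i e u) fun e => ha1 i e u hu)
      Finset.univ (fun s _ => ⟨ha1 i (l s) u hu, hprodle (fun e => ba i e u)
        (fun e => ha1 i e u hu) (l s) (Finset.mem_image_of_mem l (Finset.mem_univ s)),
        (hch i (l s) (Finset.mem_image_of_mem l (Finset.mem_univ s))).1 u hu (J j s)⟩) (τ i)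
    rw [Finset.card_univ, Fintype.card_fin] at h1
    rw [hM, Matrix.of_apply, map_mul, mul_assoc]
    exact mul_le_mul (pfj_natCast_le u _) h1 (u.nonneg _) (Nat.cast_nonneg _)
  have hrown : ∀ u : nonarchAbsVal (K := K), ∀ i j, u.val (M i j) ≤
        (∏ s, bn i (l s) u) * (∏ e ∈ Finset.univ.image l, bn i e u) ^ ord (τ i) := by
    intro u i j
    have h1 := pfj_prod_nonarch u.val (isNonarchimedean u.val u.2)
      (fun s => φ i (l s) (J j s)) (fun s => bn i (l s) u)
      (∏ e ∈ Finset.univ.image l, bn i e u) (hprod1 (fun e => bn i e u) fun e => hn1 i e u)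
      Finset.univ (fun s _ => ⟨hn1 i (l s) u, hprodle (fun e => bn i e u)
        (fun e => hn1 i e u) (l s) (Finset.mem_image_of_mem l (Finset.mem_univ s)),
        (hch i (l s) (Finset.mem_image_of_mem l (Finset.mem_univ s))).2.1 u (J j s)⟩) (τ i)
    rw [hM, Matrix.of_apply]
    exact h1
  -- the sizes
  set A : Fin N → AbsoluteValue K ℝ → ℝ := fun i u =>
    (∏ s, ba i (l s) u) * (∏ e ∈ Finset.univ.image l, ba i e u) ^ ord (τ i) with hA
  set D : Fin N → nonarchAbsVal (K := K) → ℝ := fun i u =>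
    (∏ s, bn i (l s) u) * (∏ e ∈ Finset.univ.image l, bn i e u) ^ ord (τ i) with hD
  set S : Fin N → E → ℝ := fun i e =>
    ((archAbsVal (K := K)).map (ba i e)).prod * ∏ᶠ u, bn i e u with hS
  set c : ℝ := ((N.factorial : ℝ) * ∏ i, ((fac (τ i) : ℝ) * ((L : ℝ) + 1) ^ ord (τ i))) with hc
  have hcpos : 0 < c := by
    refine mul_pos (by exact_mod_cast Nat.factorial_pos _) (Finset.prod_pos fun i _ => ?_)
    exact mul_pos (by exact_mod_cast pfj_fac_pos _) (by positivity)
  have hD1 : ∀ i u, 1 ≤ D i u := fun i u =>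
    one_le_mul_of_one_le_of_one_le (Finset.prod_induction _ (fun x => (1 : ℝ) ≤ x)
      (fun a b ha hb => one_le_mul_of_one_le_of_one_le ha hb) le_rfl fun s _ => hn1 i (l s) u)
      (one_le_pow₀ (hprod1 (fun e => bn i e u) fun e => hn1 i e u))
  have hDfin : ∀ i, (D i).HasFiniteMulSupport := fun i =>
    (HasFiniteMulSupport.prod (fun s => hfin i (l s)) _).mul
      ((HasFiniteMulSupport.prod (fun e => hfin i e) _).pow _)
  -- the archimedean part
  have harch : ((archAbsVal (K := K)).map fun u => u M.det).prod ≤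
      c ^ totalWeight K * ((archAbsVal (K := K)).map fun u => ∏ i, A i u).prod := by
    have h1 : ((archAbsVal (K := K)).map fun u => c * ∏ i, A i u).prod =
        c ^ totalWeight K * ((archAbsVal (K := K)).map fun u => ∏ i, A i u).prod := by
      rw [Multiset.prod_map_mul]
      congr 1
      simp [totalWeight]
    rw [← h1]
    refine Multiset.prod_map_le_prod_map₀ _ _ (fun u _ => u.nonneg _) fun u hu => ?_
    refine (pfj_det_arch M u (fun i => ((fac (τ i) : ℝ) * ((L : ℝ) + 1) ^ ord (τ i)) * A i u)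
      fun i j => hrowa u hu i j).trans (le_of_eq ?_)
    rw [Finset.prod_mul_distrib, hc]
    ring
  -- the non archimedean part
  set d : nonarchAbsVal (K := K) → ℝ := fun u => if u.val = w then B else 1 with hd
  have hds : ∀ u : nonarchAbsVal (K := K), u ≠ ⟨w, hw⟩ → d u = 1 := by
    intro u hu
    have : u.val ≠ w := fun h => hu (Subtype.ext h)
    simp [hd, this]
  have hdf : d.HasFiniteMulSupport := by
    refine (Set.finite_singleton (⟨w, hw⟩ : nonarchAbsVal (K := K))).subset fun u hu => ?_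
    by_contra h
    exact hu (hds u h)
  have hdB : ∏ᶠ u, d u = B := by
    rw [finprod_eq_single d ⟨w, hw⟩ hds]
    simp [hd]
  have hPfin : (fun u => ∏ i, D i u).HasFiniteMulSupport :=
    HasFiniteMulSupport.prod (fun i => hDfin i) _
  have hnon : (∏ᶠ u : nonarchAbsVal (K := K), u.val M.det) ≤
      B * ∏ᶠ u : nonarchAbsVal (K := K), ∏ i, D i u := by
    rw [← hdB, ← finprod_mul_distrib hdf hPfin]
    refine finprod_le_finprod (hasFiniteMulSupport hM0) (fun u => u.val.nonneg _)
      (hdf.mul hPfin) fun u => ?_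
    show u.val _ ≤ d u * ∏ i, D i u
    by_cases hu : u.val = w
    · simp only [hd, hu, if_true]
      refine hB.trans (le_mul_of_one_le_right hB0.le ?_)
      exact Finset.prod_induction _ (fun x => (1 : ℝ) ≤ x)
        (fun a b ha hb => one_le_mul_of_one_le_of_one_le ha hb) le_rfl fun i _ => hD1 i u
    · simp only [hd, hu, if_false, one_mul]
      exact pfj_det_nonarch M u.val (isNonarchimedean u.val u.2) (fun i => D i u)
        (fun i => zero_le_one.trans (hD1 i u)) fun i j => hrown u i j
  -- the product formula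
  have hApos : ∀ i, ∀ u ∈ archAbsVal (K := K), 0 < A i u := fun i u hu =>
    mul_pos (Finset.prod_pos fun s _ => zero_lt_one.trans_le (ha1 i (l s) u hu))
      (pow_pos (Finset.prod_pos fun e _ => zero_lt_one.trans_le (ha1 i e u hu)) _)
  have hApr : ∀ i, ((archAbsVal (K := K)).map (A i)).prod =
      (∏ s, ((archAbsVal (K := K)).map (ba i (l s))).prod) *
        (∏ e ∈ Finset.univ.image l, ((archAbsVal (K := K)).map (ba i e)).prod) ^ ord (τ i) := by
    intro i
    rw [hA]
    simp only []
    rw [Multiset.prod_map_mul, Multiset.prod_map_pow, Multiset.prod_map_prod,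
      Multiset.prod_map_prod]
  have hDpr : ∀ i, ∏ᶠ u, D i u =
      (∏ s, ∏ᶠ u, bn i (l s) u) * (∏ e ∈ Finset.univ.image l, ∏ᶠ u, bn i e u) ^ ord (τ i) := by
    intro i
    have h1 : (fun u => ∏ s, bn i (l s) u).HasFiniteMulSupport :=
      HasFiniteMulSupport.prod (fun s => hfin i (l s)) _
    have h2 : (fun u => ∏ e ∈ Finset.univ.image l, bn i e u).HasFiniteMulSupport :=
      HasFiniteMulSupport.prod (fun e => hfin i e) _
    have h3 : (fun u => (∏ e ∈ Finset.univ.image l, bn i e u) ^ ord (τ i)).HasFiniteMulSupport :=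
      h2.pow _
    calc ∏ᶠ u, D i u = (∏ᶠ u, ∏ s, bn i (l s) u) *
          ∏ᶠ u, (∏ e ∈ Finset.univ.image l, bn i e u) ^ ord (τ i) := finprod_mul_distrib h1 h3
      _ = (∏ᶠ u, ∏ s, bn i (l s) u) *
          (∏ᶠ u, ∏ e ∈ Finset.univ.image l, bn i e u) ^ ord (τ i) := by rw [finprod_pow h2]
      _ = _ := by
        rw [finprod_prod_comm _ _ fun s _ => hfin i (l s),
          finprod_prod_comm _ _ fun e _ => hfin i e]
  have hSpr : ∀ i, ((archAbsVal (K := K)).map (A i)).prod * ∏ᶠ u, D i u =
      (∏ s, S i (l s)) * (∏ e ∈ Finset.univ.image l, S i e) ^ ord (τ i) := by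
    intro i
    rw [hApr, hDpr, hS]
    simp only [Finset.prod_mul_distrib]
    rw [mul_pow]
    ring
  have hapos : ∀ i e, 0 < ((archAbsVal (K := K)).map (ba i e)).prod := by
    intro i e
    refine Multiset.prod_induction (fun x => (0 : ℝ) < x) _ (fun a b ha hb => mul_pos ha hb)
      one_pos fun x hx => ?_
    obtain ⟨u, hu, rfl⟩ := Multiset.mem_map.1 hx
    exact zero_lt_one.trans_le (ha1 i e u hu)
  have hnpos : ∀ i e, 0 < ∏ᶠ u, bn i e u := fun i e =>
    finprod_induction (fun x => (0 : ℝ) < x) one_pos (fun a b ha hb => mul_pos ha hb)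
      fun u => zero_lt_one.trans_le (hn1 i e u)
  have hSpos : ∀ i e, 0 < S i e := fun i e => mul_pos (hapos i e) (hnpos i e)
  have hSlog : ∀ i, ∀ e ∈ Finset.univ.image l, Real.log (S i e) ≤ h i e := by
    intro i e he
    refine le_trans (le_of_eq ?_) (hch i e he).2.2
    show Real.log (((archAbsVal (K := K)).map (ba i e)).prod * ∏ᶠ u, bn i e u) = _
    rw [Real.log_mul (hapos i e).ne' (hnpos i e).ne', Real.log_multiset_prod, Multiset.map_map,
      Real.log_finprod fun u => zero_lt_one.trans_le (hn1 i e u)]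
    · rfl
    · intro x hx
      obtain ⟨u, hu, rfl⟩ := Multiset.mem_map.1 hx
      exact (zero_lt_one.trans_le (ha1 i e u hu)).ne'
  have hmain : 1 ≤ c ^ totalWeight K * B *
      ∏ i, ((∏ s, S i (l s)) * (∏ e ∈ Finset.univ.image l, S i e) ^ ord (τ i)) := by
    have h0 : (0 : ℝ) ≤ ∏ᶠ u : nonarchAbsVal (K := K), u.val M.det :=
      finprod_nonneg fun u => u.val.nonneg _
    have h1 : (0 : ℝ) ≤ c ^ totalWeight K *
        ((archAbsVal (K := K)).map fun u => ∏ i, A i u).prod := by
      refine mul_nonneg (by positivity) (Multiset.prod_map_nonneg fun u hu => ?_)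
      exact Finset.prod_nonneg fun i _ => (hApos i u hu).le
    calc (1 : ℝ) = _ := (product_formula hM0).symm
      _ ≤ _ := mul_le_mul harch hnon h0 h1
      _ = _ := by
        rw [Multiset.prod_map_prod, finprod_prod_comm _ _ fun i _ => hDfin i]
        simp only [← hSpr]
        rw [Finset.prod_mul_distrib]
        ring
  -- logarithms
  have hP : ∀ i, 0 < (∏ s, S i (l s)) * (∏ e ∈ Finset.univ.image l, S i e) ^ ord (τ i) := fun i =>
    mul_pos (Finset.prod_pos fun s _ => hSpos i (l s))
      (pow_pos (Finset.prod_pos fun e _ => hSpos i e) _)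
  have hlogP : ∀ i, Real.log ((∏ s, S i (l s)) * (∏ e ∈ Finset.univ.image l, S i e) ^ ord (τ i)) ≤
      ∑ s, h i (l s) + ord (τ i) * ∑ e ∈ Finset.univ.image l, h i e := by
    intro i
    rw [Real.log_mul (Finset.prod_pos fun s _ => hSpos i (l s)).ne'
      (pow_pos (Finset.prod_pos fun e _ => hSpos i e) _).ne', Real.log_pow,
      Real.log_prod fun s _ => (hSpos i (l s)).ne', Real.log_prod fun e _ => (hSpos i e).ne']
    refine add_le_add (Finset.sum_le_sum fun s _ =>
      hSlog i (l s) (Finset.mem_image_of_mem l (Finset.mem_univ s)))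
      (mul_le_mul_of_nonneg_left (Finset.sum_le_sum fun e he => hSlog i e he)
        (Nat.cast_nonneg _))
  have hlogc : Real.log c = Real.log (N.factorial : ℝ) +
      ∑ i, (Real.log (fac (τ i)) + ord (τ i) * Real.log (L + 1)) := by
    have hf : ∀ i, (fac (τ i) : ℝ) ≠ 0 := fun i => by exact_mod_cast (pfj_fac_pos (τ i)).ne'
    have hL : ∀ i, ((L : ℝ) + 1) ^ ord (τ i) ≠ 0 := fun i => by positivity
    rw [hc, Real.log_mul (by exact_mod_cast (Nat.factorial_pos _).ne')
      (Finset.prod_ne_zero_iff.2 fun i _ => mul_ne_zero (hf i) (hL i)),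
      Real.log_prod fun i _ => mul_ne_zero (hf i) (hL i)]
    refine congrArg _ (Finset.sum_congr rfl fun i _ => ?_)
    rw [Real.log_mul (hf i) (hL i), Real.log_pow]
  have h2 := Real.log_le_log one_pos hmain
  rw [Real.log_one, Real.log_mul (mul_pos (pow_pos hcpos _) hB0).ne'
    (Finset.prod_pos fun i _ => hP i).ne', Real.log_mul (pow_pos hcpos _).ne' hB0.ne',
    Real.log_pow, Real.log_prod fun i _ => (hP i).ne', hlogc] at h2
  have h3 := Finset.sum_le_sum fun i (_ : i ∈ Finset.univ) => hlogP i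
  linarith

end PFJ

end Pool.Agent.H79.HN
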